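import Mathlib
import Pool.Agent.H443.PP.Row
import Pool.Agent.H443.PP.Conv
import Pool.Agent.H443.PP.Tup

/-!
# Four exponentials, with an arbitrary second row, for the parts of almost all integers

Let `P_1, …, P_m` be disjoint sets of primes. The `P_i`-part of a positive integer `n` is the product
of the prime powers `p ^ v_p (n)` with `p` in `P_i`. We say that the real numbers `y_1, …, y_r` are a
generic row over the rational space `V` of real numbers if `V' = V + ℚ y_1 + ⋯ + ℚ y_r` has dimension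
`dim V + r` and every `2 × 2` matrix of logarithms of positive algebraic numbers with first row in
`V'`, not in `V`, with ARBITRARY second row, with `ℚ`-linearly independent rows and `ℚ`-linearly
independent columns, has nonzero determinant.

The following are equivalent.

* For every `i` the sum of `1 / p` over the primes `p` in `P_i` diverges.
* For all `k`, `d` and `ε > 0`, for large `x_1, …, x_k` and all `V` of dimension at most `d`: for all
  but `ε x_1 ⋯ x_k` of the tuples of integers `1 ≤ n_j ≤ x_j` the logarithms of the `k m` numbers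
  `(P_i`-part of `n_j)` are a generic row over `V`.

In particular let `a` be a positive rational number, `a ≠ 1`. If the sums diverge, then almost all `n`
have the following property: for every irrational real number `t` at most one of the `m + 1` numbers
`a ^ t`, `(P_i`-part of `n) ^ t` is algebraic.
-/

set_option autoImplicit false

namespace Pool.Agent.Results.MP_bbc1fa_nt.PartsOfAlmostAllIntegers

open Module

open Classical in
/-- the `P`-part of `n` -/
noncomputable def part (P : Set ℕ) (n : ℕ) : ℕ :=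
  ∏ p ∈ n.primeFactors.filter (· ∈ P), p ^ n.factorization p

/-- the four exponentials conjecture holds for all matrices of logarithms of positive algebraic
numbers with first row in the space generated by `V` and the `y z`, and not in `V`, and arbitrary
second row -/
def IsGenericRow (V : Submodule ℚ ℝ) {Z : Type} [Fintype Z] (y : Z → ℝ) : Prop :=
  finrank ℚ (V ⊔ Submodule.span ℚ (Set.range y) : Submodule ℚ ℝ) = finrank ℚ V + Fintype.card Z ∧
  ∀ M : Matrix (Fin 2) (Fin 2) ℝ, (∀ i j, IsAlgebraic ℚ (Real.exp (M i j))) →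
    (∀ j, M 0 j ∈ V ⊔ Submodule.span ℚ (Set.range y)) →
    (∃ j, M 0 j ∉ V) →
    LinearIndependent ℚ (fun i : Fin 2 => fun j : Fin 2 => M i j) →
    LinearIndependent ℚ (fun j : Fin 2 => fun i : Fin 2 => M i j) →
    M.det ≠ 0

/-- the embedding of the reals -/
noncomputable def φ : ℝ →ₗ[ℚ] ℂ := (Complex.ofRealAm.toLinearMap).restrictScalars ℚ

theorem φ_apply (r : ℝ) : φ r = (r : ℂ) := rfl

theorem φ_inj : Function.Injective φ := fun a b h => by
  rw [φ_apply, φ_apply] at h
  exact_mod_cast h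

theorem finrank_map (W : Submodule ℚ ℝ) : finrank ℚ (W.map φ) = finrank ℚ W :=
  (Submodule.equivMapOfInjective φ φ_inj W).finrank_eq.symm

theorem genericRow_of_good2f (V : Submodule ℚ ℝ) {k : ℕ} (y : Fin k → ℝ)
    (h : Pool.Agent.R350.Good2f (V.map φ) Pool.Agent.H301R2.SSE.Lt (fun i => (y i : ℂ))) :
    IsGenericRow V y := by
  have hmap : (V ⊔ Submodule.span ℚ (Set.range y)).map φ =
      V.map φ ⊔ Submodule.span ℚ (Set.range fun i => (y i : ℂ)) := by
    rw [Submodule.map_sup, Submodule.map_span, ← Set.range_comp]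
    rfl
  have hg1 := h.1
  rw [← hmap, finrank_map, finrank_map] at hg1
  refine ⟨by rw [hg1, Fintype.card_fin], fun M hMalg hM0 hV hrow hcol hdet => ?_⟩
  have hdet' : M 0 0 * M 1 1 = M 0 1 * M 1 0 := by
    rw [Matrix.det_fin_two] at hdet
    linear_combination hdet
  have halg : ∀ i j, IsAlgebraic ℚ (Complex.exp (M i j : ℂ)) := fun i j => by
    rw [← Complex.ofReal_exp]
    exact (hMalg i j).algebraMap
  have hli : LinearIndependent ℚ (fun j : Fin 2 => (M 0 j : ℂ)) :=
    (Pool.Agent.R350.row_li M hdet' hrow hcol).map' φ (LinearMap.ker_eq_bot.2 φ_inj)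
  rcases h.2 (fun j => (M 0 j : ℂ)) (fun j => (M 1 j : ℂ)) (fun j => by
    rw [← hmap]
    exact Submodule.mem_map_of_mem (hM0 j)) (fun j => Submodule.mem_sup_left
      (Pool.Agent.H301R2.SSE.Lt_log (halg 1 j))) (by exact_mod_cast hdet') hli
    with ⟨ρ, hρ⟩ | h
  · have hM00 : (M 0 0 : ℂ) ≠ 0 := hli.ne_zero 0
    obtain ⟨q, hq⟩ := Pool.Agent.R350.ratio_rat (ρ := (ρ : ℂ)) (halg 0 0) (halg 1 0)
      (Pool.Agent.H301R2.SSE.mem_QB.1 ρ.2) hM00 (hρ 0)
    have h1 := Fintype.linearIndependent_iff.1 hrow ![q, -1] (by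
      funext j
      rw [Fin.sum_univ_two, Pi.add_apply, Pi.smul_apply, Pi.smul_apply, Matrix.cons_val_zero,
        Matrix.cons_val_one, Rat.smul_def, Rat.smul_def,
        Pi.zero_apply]
      have h2 : (M 1 j : ℂ) = (ρ : ℂ) * M 0 j := hρ j
      rw [hq] at h2
      have h3 : M 1 j = q * M 0 j := by exact_mod_cast h2
      rw [h3]
      push_cast
      ring) 1
    simp at h1
  · obtain ⟨j, hj⟩ := hV
    apply hj
    obtain ⟨w, hw, h1⟩ := Submodule.mem_map.1 (h j)
    rw [φ_apply] at h1
    have h2 : w = M 0 j := by exact_mod_cast h1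
    rw [← h2]
    exact hw

open Finset Pool.Agent.H443.PP

theorem log_part {m : ℕ} (P : Fin m → Set ℕ) (n : ℕ) (i : Fin m) :
    ((Real.log (part (P i) n) : ℝ) 
    : ℂ) = Pool.Agent.H443.PP.lp P n i := by
  classical
  unfold part Pool.Agent.H443.PP.lp Lc Finsupp.sum
  rw [Nat.cast_prod, Real.log_prod]
  · rw [Finset.sum_filter]
    push_cast
    rw [Nat.support_factorization]
    refine Finset.sum_congr rfl fun p _ => ?_
    show _ = _ * Complex.log (p : ℂ)
    have h1 : ((id (ind P p i) : algebraicClosure ℚ ℂ) : ℂ) = if p ∈ P i then 1 else 0 := by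
      show ((ind P p i : algebraicClosure ℚ ℂ) : ℂ) = _
      unfold ind
      split_ifs <;> simp
    rw [h1, ← Complex.ofReal_natCast p, ← Complex.ofReal_log (Nat.cast_nonneg p)]
    by_cases hp : p ∈ P i
    · rw [if_pos hp, if_pos hp]
      push_cast
      rw [Real.log_pow]
      push_cast
      ring
    · rw [if_neg hp, if_neg hp]
      simp
  · intro p hp
    have hp' := Nat.prime_of_mem_primeFactors (Finset.mem_filter.1 hp).1
    have : (p : ℝ) ≠ 0 := by exact_mod_cast hp'.ne_zero
    push_cast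
    exact pow_ne_zero _ this

theorem part_eq_one (P : Set ℕ) (n : ℕ) (h : ∀ p ∈ P, ¬ p ∣ n) : part P n = 1 := by
  classical
  unfold part
  rw [Finset.filter_false_of_mem, Finset.prod_empty]
  intro p hp hpP
  exact h p hpP (Nat.dvd_of_mem_primeFactors hp)

theorem Icc_Ioc (x : ℕ) : Icc 1 x = Ioc 0 x := by
  ext n
  simp only [Finset.mem_Icc, Finset.mem_Ioc]
  omega

theorem IsGenericRow.congr {V : Submodule ℚ ℝ} {Z Z' : Type} [Fintype Z] [Fintype Z']
    (e : Z ≃ Z') {y : Z' → ℝ} (h : IsGenericRow V (y ∘ e)) : IsGenericRow V y := by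
  have h1 : Set.range (y ∘ e) = Set.range y := e.surjective.range_comp y
  unfold IsGenericRow at h ⊢
  rw [h1, Fintype.card_congr e] at h
  exact h

theorem IsGenericRow.chain {V : Submodule ℚ ℝ} {Z Z' : Type} [Fintype Z] [Fintype Z']
    {y : Z → ℝ} {y' : Z' → ℝ} (h : IsGenericRow V y)
    (h' : IsGenericRow (V ⊔ Submodule.span ℚ (Set.range y)) y') :
    IsGenericRow V (Sum.elim y y') := by
  have h1 : V ⊔ Submodule.span ℚ (Set.range (Sum.elim y y')) =
      (V ⊔ Submodule.span ℚ (Set.range y)) ⊔ Submodule.span ℚ (Set.range y') := by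
    rw [Set.Sum.elim_range, Submodule.span_union, sup_assoc]
  refine ⟨?_, ?_⟩
  · rw [h1, h'.1, h.1, Fintype.card_sum, add_assoc]
  · intro M hM h0 hV hr hc
    rw [h1] at h0
    by_cases hall : ∀ j, M 0 j ∈ V ⊔ Submodule.span ℚ (Set.range y)
    · exact h.2 M hM hall hV hr hc
    · push Not at hall
      exact h'.2 M hM h0 hall hr hc

open Classical in
theorem one_integer (m d : ℕ) (P : Fin m → Set ℕ) (hPp : ∀ i, ∀ p ∈ P i, p.Prime)
    (hP : ∀ i, Pool.Agent.H443.PP.Div (P i)) (hdis : ∀ i j, i ≠ j → Disjoint (P i) (P j))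
    (ε : ℝ) (hε : 0 < ε) :
    ∃ x₀ : ℕ, ∀ x ≥ x₀, ∀ V : Submodule ℚ ℝ, Module.Finite ℚ V → Module.finrank ℚ V ≤ d →
      (((Ioc 0 x).filter fun a : ℕ =>
        ¬ IsGenericRow V (fun i => Real.log (part (P i) a))).card : ℝ) ≤ ε * x := by
  obtain ⟨x₀, hx₀⟩ := row_one m d P hPp hP hdis ε hε
  refine ⟨x₀, fun x hx V hVf hVd => ?_⟩
  have hVf' : Module.Finite ℚ (V.map φ) := Module.Finite.map V φ
  refine le_trans (Nat.cast_le.2 (Finset.card_le_card ?_))
    (hx₀ x hx (V.map φ) hVf' (by rw [finrank_map]; exact hVd))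
  intro a ha
  rw [Finset.mem_filter] at ha ⊢
  refine ⟨ha.1, fun hgood => ha.2 (genericRow_of_good2f V _ ?_)⟩
  simp only [log_part]
  exact hgood

open Classical in
theorem tuple (m : ℕ) (P : Fin m → Set ℕ) (hPp : ∀ i, ∀ p ∈ P i, p.Prime)
    (hP : ∀ i, Pool.Agent.H443.PP.Div (P i)) (hdis : ∀ i j, i ≠ j → Disjoint (P i) (P j)) (k : ℕ) :
    ∀ (d : ℕ) (ε : ℝ), 0 < ε → ∃ N₀ : ℕ, ∀ N : Fin k → ℕ, (∀ j, N₀ ≤ N j) →
    ∀ V : Submodule ℚ ℝ, Module.Finite ℚ V → Module.finrank ℚ V ≤ d →
      (((Fintype.piFinset fun j => Ioc 0 (N j)).filter fun x : Fin k → ℕ =>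
        ¬ IsGenericRow V (fun z : Fin k × Fin m => Real.log (part (P z.2) (x z.1)))).card : ℝ) ≤
      ε * ∏ j, (N j : ℝ) := by
  induction k with
  | zero =>
    intro d ε hε
    refine ⟨0, fun N _ V _ _ => ?_⟩
    rw [Finset.filter_false_of_mem]
    · simp [hε.le]
    · intro x _
      push Not
      have h1 : Set.range (fun z : Fin 0 × Fin m => Real.log (part (P z.2) (x z.1))) = ∅ := by
        rw [Set.range_eq_empty_iff]
        exact ⟨fun z => z.1.elim0⟩
      refine ⟨?_, ?_⟩
      · rw [h1, Submodule.span_empty, sup_bot_eq, Fintype.card_eq_zero, add_zero]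
      · intro M _ h0 hV
        rw [h1, Submodule.span_empty, sup_bot_eq] at h0
        obtain ⟨j, hj⟩ := hV
        exact absurd (h0 j) hj
  | succ k ih =>
    intro d ε hε
    obtain ⟨N₁, hN₁⟩ := one_integer m d P hPp hP hdis (ε / 2) (by linarith)
    obtain ⟨N₂, hN₂⟩ := ih (d + m) (ε / 2) (by linarith)
    refine ⟨max N₁ N₂, fun N hN V hVf hVd => ?_⟩
    set bad : (Fin (k + 1) → ℕ) → Prop := fun x =>
        ¬ IsGenericRow V (fun z : Fin (k + 1) × Fin m => Real.log (part (P z.2) (x z.1))) with hbad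
    set B := (Fintype.piFinset fun j => Ioc 0 (N j)).filter bad with hB
    set L₀ : ℕ → Fin m → ℝ := fun a i => Real.log (part (P i) a) with hL₀
    set A := (Ioc 0 (N 0)).filter (fun a => ¬ IsGenericRow V (L₀ a)) with hA
    have hcd : ∀ j : Fin (k + 1), ((Ioc 0 (N j)).card : ℝ) = N j := fun j => by
      rw [Nat.card_Ioc, Nat.sub_zero]
    have hAcard : (A.card : ℝ) ≤ ε / 2 * (Ioc 0 (N 0)).card := by
      rw [hcd]
      exact hN₁ (N 0) ((le_max_left _ _).trans (hN 0)) V hVf hVd
    set Z : ℝ := ∏ j : Fin k, (N j.succ : ℝ) with hZ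
    have hZ0 : 0 ≤ Z := Finset.prod_nonneg fun _ _ => Nat.cast_nonneg _
    have hfib : B.card = ∑ a ∈ Ioc 0 (N 0), (B.filter (fun x => x 0 = a)).card := by
      apply Finset.card_eq_sum_card_fiberwise
      intro x hx
      have hx' : x ∈ B := hx
      rw [hB, Finset.mem_filter, Fintype.mem_piFinset] at hx'
      exact hx'.1 0
    set Ps : Finset (Fin k → ℕ) := Fintype.piFinset fun j : Fin k => Ioc 0 (N j.succ) with hPs
    have hPc : (Ps.card : ℝ) = Z := by
      rw [hPs, Fintype.card_piFinset, hZ]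
      push_cast
      exact Finset.prod_congr rfl fun j _ => hcd j.succ
    have hle : ∀ a, (B.filter (fun x => x 0 = a)).card ≤
        (Ps.filter (fun y => bad (Fin.cons a y))).card := by
      intro a
      apply Finset.card_le_card_of_injOn (fun x => Fin.tail x)
      · intro x hx
        have hx' : x ∈ B.filter (fun x => x 0 = a) := hx
        rw [Finset.mem_filter, hB, Finset.mem_filter, Fintype.mem_piFinset] at hx'
        have hcons : (Fin.cons a (Fin.tail x) : Fin (k + 1) → ℕ) = x := by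
          rw [← hx'.2]; exact Fin.cons_self_tail x
        show Fin.tail x ∈ _
        rw [Finset.mem_coe, Finset.mem_filter, hPs, Fintype.mem_piFinset]
        refine ⟨fun j => hx'.1.1 j.succ, ?_⟩
        rw [hcons]
        exact hx'.1.2
      · intro x hx y hy h
        have hx' : x ∈ B.filter (fun x => x 0 = a) := hx
        have hy' : y ∈ B.filter (fun x => x 0 = a) := hy
        rw [Finset.mem_filter] at hx' hy'
        rw [← Fin.cons_self_tail x, ← Fin.cons_self_tail y, hx'.2, hy'.2]
        have : Fin.tail x = Fin.tail y := h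
        rw [this]
    have hgood : ∀ a ∈ Ioc 0 (N 0), a ∉ A →
        ((Ps.filter (fun y => bad (Fin.cons a y))).card : ℝ) ≤ ε / 2 * Z := by
      intro a ha haA
      have hta : IsGenericRow V (L₀ a) := by
        by_contra hcon
        apply haA
        rw [hA, Finset.mem_filter]
        exact ⟨ha, hcon⟩
      have hf : Module.Finite ℚ (V ⊔ Submodule.span ℚ (Set.range (L₀ a)) : Submodule ℚ ℝ) := by
        have h1 : FiniteDimensional ℚ (Submodule.span ℚ (Set.range (L₀ a))) :=
          FiniteDimensional.span_of_finite _ (Set.finite_range _)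
        infer_instance
      have hfr : finrank ℚ (V ⊔ Submodule.span ℚ (Set.range (L₀ a)) : Submodule ℚ ℝ) ≤ d + m := by
        rw [hta.1, Fintype.card_fin]
        omega
      have h1 := hN₂ (fun j => N j.succ) (fun j => (le_max_right _ _).trans (hN j.succ))
        _ hf hfr
      refine le_trans (Nat.cast_le.2 (Finset.card_le_card ?_)) h1
      intro y hy
      rw [Finset.mem_filter] at hy ⊢
      refine ⟨hy.1, ?_⟩
      intro hno
      apply hy.2
      apply IsGenericRow.congr (prEquiv k m)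
      have h2 := IsGenericRow.chain hta hno
      have h3 : (fun z : Fin (k + 1) × Fin m =>
          Real.log (part (P z.2) ((Fin.cons a y : Fin (k + 1) → ℕ) z.1))) ∘ (prEquiv k m) =
          Sum.elim (L₀ a) (fun z : Fin k × Fin m => Real.log (part (P z.2) (y z.1))) := by
        funext u
        rcases u with c | ⟨j, c⟩
        · rfl
        · rfl
      rw [h3]
      exact h2
    have htriv : ∀ a, ((Ps.filter (fun y => bad (Fin.cons a y))).card : ℝ) ≤ Z := by
      intro a
      rw [← hPc]
      exact Nat.cast_le.2 (Finset.card_filter_le _ _)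
    have hAsub : A ⊆ Ioc 0 (N 0) := Finset.filter_subset _ _
    have h1 := Pool.Agent.H443.NF.sum_split (Ioc 0 (N 0)) A hAsub
      (fun a => ((B.filter (fun x => x 0 = a)).card : ℝ)) Z (ε / 2 * Z)
      (fun a _ => (Nat.cast_le.2 (hle a)).trans (htriv a))
      (fun a ha haA => (Nat.cast_le.2 (hle a)).trans (hgood a ha haA))
      (mul_nonneg (by linarith) hZ0) hZ0
    have h2 : (B.card : ℝ) = ∑ a ∈ Ioc 0 (N 0), ((B.filter (fun x => x 0 = a)).card : ℝ) := by
      rw [hfib, Nat.cast_sum]
    have h3 : ∏ j : Fin (k + 1), (N j : ℝ) = (Ioc 0 (N 0)).card * Z := by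
      rw [hcd]
      exact Fin.prod_univ_succ _
    rw [h3, h2]
    refine h1.trans ?_
    have h4 : (A.card : ℝ) * Z ≤ (ε / 2 * (Ioc 0 (N 0)).card) * Z :=
      mul_le_mul_of_nonneg_right hAcard hZ0
    calc (A.card : ℝ) * Z + (Ioc 0 (N 0)).card * (ε / 2 * Z)
        ≤ (ε / 2 * (Ioc 0 (N 0)).card) * Z + (Ioc 0 (N 0)).card * (ε / 2 * Z) :=
          add_le_add h4 le_rfl
      _ = ε * ((Ioc 0 (N 0)).card * Z) := by ring

/-- the numbers `a` and the parts of `n` -/
noncomputable def num {m : ℕ} (P : Fin m → Set ℕ) (a : ℝ) (n : ℕ) : Option (Fin m) → ℝ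
  | none => a
  | some i => part (P i) n

theorem part_pos (P : Set ℕ) (n : ℕ) : 0 < part P n := by
  classical
  unfold part
  refine Finset.prod_pos fun p hp => ?_
  exact pow_pos (Nat.prime_of_mem_primeFactors (Finset.mem_filter.1 hp).1).pos _

theorem powers {m : ℕ} (P : Fin m → Set ℕ) (a : ℝ) (ha : 0 < a) (halg : IsAlgebraic ℚ a)
    (ha1 : a ≠ 1) (n : ℕ)
    (h : IsGenericRow (Submodule.span ℚ {Real.log a}) (fun i => Real.log (part (P i) n)))
    (t : ℝ) (ht : Irrational t) (i j : Option (Fin m)) (hij : i ≠ j)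
    (hi : IsAlgebraic ℚ (num P a n i ^ t)) (hj : IsAlgebraic ℚ (num P a n j ^ t)) : False := by
  have hla : Real.log a ≠ 0 := Real.log_ne_zero_of_pos_of_ne_one ha ha1
  have hpos : ∀ i, 0 < num P a n i := by
    rintro (_ | i)
    · exact ha
    · show (0 : ℝ) < ((part (P i) n : ℕ) : ℝ)
      exact_mod_cast part_pos (P i) n
  have hnalg : ∀ i, IsAlgebraic ℚ (num P a n i) := by
    rintro (_ | i)
    · exact halg
    · exact isAlgebraic_natCast _
  set l : Option (Fin m) → ℝ := fun i => Real.log (num P a n i) with hl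
  have hspan : Submodule.span ℚ {Real.log a} ⊔ Submodule.span ℚ
      (Set.range fun i => Real.log (part (P i) n)) = Submodule.span ℚ (Set.range l) := by
    rw [← Submodule.span_union]
    congr 1
    ext z
    constructor
    · rintro (h | ⟨i, rfl⟩)
      · exact ⟨none, h.symm⟩
      · exact ⟨some i, rfl⟩
    · rintro ⟨_ | i, rfl⟩
      · exact Or.inl rfl
      · exact Or.inr ⟨i, rfl⟩
  have hli : LinearIndependent ℚ l := by
    rw [linearIndependent_iff_card_eq_finrank_span]
    have h1 := h.1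
    rw [hspan, finrank_span_singleton hla, Fintype.card_fin] at h1
    rw [Fintype.card_option, Fintype.card_fin]
    show m + 1 = finrank ℚ (Submodule.span ℚ (Set.range l))
    rw [h1, add_comm]
  have hli2 : LinearIndependent ℚ ![l i, l j] := by
    have h1 := hli.comp ![i, j] (by
      intro a b hab
      fin_cases a <;> fin_cases b
      · rfl
      · exact absurd hab hij
      · exact absurd hab.symm hij
      · rfl)
    have h2 : l ∘ ![i, j] = ![l i, l j] := by
      funext c; fin_cases c <;> rfl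
    rwa [h2] at h1
  have hne : ∀ c : Fin 2, ![l i, l j] c ≠ 0 := fun c => hli2.ne_zero c
  set M : Matrix (Fin 2) (Fin 2) ℝ := !![l i, l j; t * l i, t * l j] with hM
  refine h.2 M ?_ ?_ ?_ ?_ ?_ ?_
  · have hexp : ∀ i, Real.exp (l i) = num P a n i := fun i => Real.exp_log (hpos i)
    have hexpt : ∀ i, Real.exp (t * l i) = num P a n i ^ t := fun i => by
      rw [Real.rpow_def_of_pos (hpos i), mul_comm]
    intro c c'
    fin_cases c <;> fin_cases c'
    · show IsAlgebraic ℚ (Real.exp (l i)); rw [hexp]; exact hnalg i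
    · show IsAlgebraic ℚ (Real.exp (l j)); rw [hexp]; exact hnalg j
    · show IsAlgebraic ℚ (Real.exp (t * l i)); rw [hexpt]; exact hi
    · show IsAlgebraic ℚ (Real.exp (t * l j)); rw [hexpt]; exact hj
  · rw [hspan]
    intro c
    fin_cases c
    · exact Submodule.subset_span ⟨i, rfl⟩
    · exact Submodule.subset_span ⟨j, rfl⟩
  · by_contra hcon
    push Not at hcon
    have h0 := hcon 0
    have h1 := hcon 1
    obtain ⟨s, hs⟩ := Submodule.mem_span_singleton.1 h0
    obtain ⟨s', hs'⟩ := Submodule.mem_span_singleton.1 h1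
    have hs1 : s • Real.log a = l i := hs
    have hs1' : s' • Real.log a = l j := hs'
    have h2 := Fintype.linearIndependent_iff.1 hli2 ![s', -s] (by
      rw [Fin.sum_univ_two]
      show s' • l i + (-s) • l j = 0
      rw [← hs1, ← hs1']
      simp only [smul_smul, ← add_smul]
      rw [show s' * s + -s * s' = 0 by ring, zero_smul]) 0
    have h3 : s' = 0 := h2
    apply hne 1
    show l j = 0
    rw [← hs1', h3, zero_smul]
  · rw [Fintype.linearIndependent_iff]
    intro g hg
    have h1 := congrFun hg 0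
    rw [Fin.sum_univ_two] at h1
    have h2 : (g 0 : ℝ) * l i + (g 1 : ℝ) * (t * l i) = 0 := by
      have h3 : g 0 • l i + g 1 • (t * l i) = 0 := h1
      rw [Rat.smul_def, Rat.smul_def] at h3
      exact h3
    have hi0 : l i ≠ 0 := hne 0
    have h3 : (g 0 : ℝ) + (g 1 : ℝ) * t = 0 := by
      have h4 : ((g 0 : ℝ) + (g 1 : ℝ) * t) * l i = 0 := by linarith
      exact (mul_eq_zero.1 h4).resolve_right hi0
    have hg1 : g 1 = 0 := by
      by_contra hne1
      apply ht
      refine ⟨-g 0 / g 1, ?_⟩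
      have h5 : (g 1 : ℝ) ≠ 0 := by exact_mod_cast hne1
      push_cast
      field_simp
      linarith
    have hg0 : g 0 = 0 := by
      rw [hg1] at h3
      simpa using h3
    intro c
    fin_cases c
    · exact hg0
    · exact hg1
  · rw [Fintype.linearIndependent_iff]
    intro g hg
    have h1 := congrFun hg 0
    rw [Fin.sum_univ_two] at h1
    exact Fintype.linearIndependent_iff.1 hli2 g (by
      rw [Fin.sum_univ_two]
      exact h1)
  · rw [hM, Matrix.det_fin_two_of]
    ring

open Classical in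
/-- **Main result.** -/
theorem result (m : ℕ) (P : Fin m → Set ℕ) (hP : ∀ i, ∀ p ∈ P i, p.Prime)
    (hdis : ∀ i j, i ≠ j → Disjoint (P i) (P j)) :
    -- generic rows
    ((∀ i, ¬ Summable (fun p : P i => 1 / ((p : ℕ) : ℝ))) ↔
    ∀ (k d : ℕ) (ε : ℝ), 0 < ε → ∃ x₀ : ℕ, ∀ x : Fin k → ℕ, (∀ j, x₀ ≤ x j) →
      ∀ V : Submodule ℚ ℝ, Module.Finite ℚ V → Module.finrank ℚ V ≤ d →
      (((Fintype.piFinset fun j => Finset.Icc 1 (x j)).filter fun n : Fin k → ℕ =>
        ¬ IsGenericRow V (fun z : Fin k × Fin m => Real.log (part (P z.2) (n z.1)))).card : ℝ) ≤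
          ε * ∏ j, (x j : ℝ)) ∧
    -- irrational powers
    ((∀ i, ¬ Summable (fun p : P i => 1 / ((p : ℕ) : ℝ))) →
    ∀ ε : ℝ, 0 < ε → ∃ x₀ : ℕ, ∀ x ≥ x₀, ∀ a : ℝ, 0 < a → IsAlgebraic ℚ a → a ≠ 1 →
      (((Finset.Icc 1 x).filter fun n => ∃ (t : ℝ) (i j : Option (Fin m)), Irrational t ∧ i ≠ j ∧
        IsAlgebraic ℚ (num P a n i ^ t) ∧ IsAlgebraic ℚ (num P a n j ^ t)).card : ℝ) ≤ ε * x) := by
  have hDiv : (∀ i, ¬ Summable (fun p : P i => 1 / ((p : ℕ) : ℝ))) →
      ∀ i, Pool.Agent.H443.PP.Div (P i) := fun h i hs => h i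
      ((summable_subtype_iff_indicator (f := fun p : ℕ => (1 : ℝ) / p) (s := P i)).2 hs)
  refine ⟨?_, fun h ε hε => ?_⟩
  swap
  · obtain ⟨x₀, hx₀⟩ := one_integer m 1 P hP (hDiv h) hdis ε hε
    refine ⟨x₀, fun x hx a ha halg ha1 => ?_⟩
    refine le_trans (Nat.cast_le.2 (Finset.card_le_card ?_))
      (hx₀ x hx (Submodule.span ℚ {Real.log a}) inferInstance (finrank_span_le_card _ |>.trans (by simp)))
    intro n hn
    rw [Finset.mem_filter] at hn ⊢
    rw [← Icc_Ioc]
    refine ⟨hn.1, fun hg => ?_⟩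
    obtain ⟨t, i, j, ht, hij, hi, hj⟩ := hn.2
    exact powers P a ha halg ha1 n hg t ht i j hij hi hj
  constructor
  · intro h k d ε hε
    obtain ⟨x₀, hx₀⟩ := tuple m P hP (hDiv h) hdis k d ε hε
    refine ⟨x₀, fun x hx V hVf hVd => ?_⟩
    simp only [Icc_Ioc]
    exact hx₀ x hx V hVf hVd
  · intro h i hs
    have hs' := (summable_subtype_iff_indicator (f := fun p : ℕ => (1 : ℝ) / p) (s := P i)).1 hs
    obtain ⟨δ, x₀, hδ, hx₀⟩ := sieve (P i) (hP i) hs'
    obtain ⟨x₁, hx₁⟩ := h 1 0 (δ / 2) (by linarith)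
    set x := max (max x₀ x₁) 1 with hx
    have h1 := hx₀ x ((le_max_left _ _).trans (le_max_left _ _))
    have h2 : (1 : ℝ) ≤ x := by exact_mod_cast le_max_right _ _
    have h4 := hx₁ (fun _ => x) (fun _ => (le_max_right _ _).trans (le_max_left _ _)) ⊥
      inferInstance (by rw [finrank_bot])
    rw [Fin.prod_univ_one] at h4
    have h3 : ((Ioc 0 x).filter (fun n => ∀ p ∈ P i, ¬ p ∣ n)).card ≤
        ((Fintype.piFinset fun _ : Fin 1 => Finset.Icc 1 x).filter fun n : Fin 1 → ℕ =>
        ¬ IsGenericRow ⊥ (fun z : Fin 1 × Fin m => Real.log (part (P z.2) (n z.1)))).card := by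
      apply Finset.card_le_card_of_injOn (fun n => fun _ : Fin 1 => n)
      · intro n hn
        have hn' := Finset.mem_filter.1 (Finset.mem_coe.1 hn)
        rw [Finset.mem_coe, Finset.mem_filter, Fintype.mem_piFinset]
        refine ⟨fun _ => by rw [Icc_Ioc]; exact hn'.1, fun hg => ?_⟩
        have h5 := hg.1
        rw [bot_sup_eq, finrank_bot, zero_add] at h5
        have h6 : LinearIndependent ℚ
            (fun z : Fin 1 × Fin m => Real.log (part (P z.2) n)) := by
          rw [linearIndependent_iff_card_eq_finrank_span]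
          exact h5.symm
        have h7 := h6.ne_zero (0, i)
        apply h7
        simp only
        rw [part_eq_one (P i) n hn'.2, Nat.cast_one, Real.log_one]
      · intro n _ n' _ h5
        exact congrFun h5 0
    have h5 : (((Ioc 0 x).filter (fun n => ∀ p ∈ P i, ¬ p ∣ n)).card : ℝ) ≤ _ := Nat.cast_le.2 h3
    nlinarith

end Pool.Agent.Results.MP_bbc1fa_nt.PartsOfAlmostAllIntegers
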